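import Pool.Agent.W297.LP.Stm

/-!
# Project LP (helper297): gluing trees at the root, and the core bound
-/

set_option autoImplicit false

open Finset

namespace Pool.Agent.W315.LPGlue

open Pool.Agent.W297.LP

/-- glue at the root -/
def mul (A : Tr) : Tr → Tr
  | .pt => A
  | .br B C => .br (mul A B) C

theorem sz_mul (A B : Tr) : (mul A B).sz = A.sz + B.sz := by
  induction B with
  | pt => simp [mul, Tr.sz]
  | br B C ihB _ =>
    simp only [mul, Tr.sz, ihB]
    omega

theorem td_mul {V : Type} [Fintype V] (W : V → V → ℝ) (A B : Tr) (x : V) :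
    td W (mul A B) x = td W A x * td W B x := by
  induction B with
  | pt => simp [mul, td]
  | br B C ihB _ =>
    simp only [mul, td, ihB]
    ring

theorem glue : SGlue := by
  intro k
  induction k with
  | zero =>
    intro T
    refine ⟨.pt, ?_, ?_⟩
    · simp [Tr.sz, tot]
    · intro V _ W x
      simp [td]
  | succ k ih =>
    intro T
    obtain ⟨T0, h1, h2⟩ := ih (fun i => T i.succ)
    refine ⟨mul (T 0) T0, ?_, ?_⟩
    · rw [sz_mul, h1]
      unfold tot
      rw [Fin.sum_univ_succ]
    · intro V _ W x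
      rw [td_mul, h2, Fin.prod_univ_succ]

theorem W_nonneg {V : Type} {W : V → V → ℝ} (hW : Ker W) (x y : V) : 0 ≤ W x y := by
  rcases hW.zo x y with h | h <;> rw [h] <;> norm_num

theorem td_nonneg {V : Type} [Fintype V] {W : V → V → ℝ} (hW : Ker W) (T : Tr) :
    ∀ x : V, 0 ≤ td W T x := by
  induction T with
  | pt => intro x; simp [td]
  | br A B ihA ihB =>
    intro x
    simp only [td]
    apply mul_nonneg (ihA x)
    apply div_nonneg _ (Nat.cast_nonneg _)
    exact Finset.sum_nonneg (fun y _ => mul_nonneg (W_nonneg hW x y) (ihB y))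

theorem core : SCore := by
  intro V _ W hW S τ hτ hS T
  induction T with
  | pt =>
    intro x _
    simp [Tr.sz, td]
  | br A B ihA ihB =>
    intro x hx
    simp only [Tr.sz, td]
    have hn : (0 : ℝ) < (Fintype.card V : ℝ) := by
      have : 0 < Fintype.card V := Fintype.card_pos_iff.2 ⟨x⟩
      exact_mod_cast this
    have h1 : τ ^ (B.sz + 1) ≤ (∑ y, W x y * td W B y) / (Fintype.card V : ℝ) := by
      rw [le_div_iff₀ hn]
      calc τ ^ (B.sz + 1) * (Fintype.card V : ℝ) = τ ^ B.sz * (τ * (Fintype.card V : ℝ)) := by ring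
        _ ≤ τ ^ B.sz * ∑ y ∈ S, W x y := mul_le_mul_of_nonneg_left hx (pow_nonneg hτ _)
        _ = ∑ y ∈ S, W x y * τ ^ B.sz := by
          rw [Finset.mul_sum]
          exact Finset.sum_congr rfl (fun y _ => mul_comm _ _)
        _ ≤ ∑ y ∈ S, W x y * td W B y := by
          apply Finset.sum_le_sum
          intro y hy
          exact mul_le_mul_of_nonneg_left (ihB y (hS y hy)) (W_nonneg hW x y)
        _ ≤ ∑ y, W x y * td W B y := by
          apply Finset.sum_le_univ_sum_of_nonneg
          intro y
          exact mul_nonneg (W_nonneg hW x y) (td_nonneg hW B y)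
    calc τ ^ (A.sz + B.sz + 1) = τ ^ A.sz * τ ^ (B.sz + 1) := by rw [add_assoc, pow_add]
      _ ≤ _ := mul_le_mul (ihA x hx) h1 (pow_nonneg hτ _) (td_nonneg hW A x)

end Pool.Agent.W315.LPGlue
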