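import Pool.Agent.W533.LP.Stm2

/-!
# Noise sensitivity of last passage percolation: the cone inequality and sparsity of big sites
-/

namespace Pool.Agent.W315.LP

open MeasureTheory ProbabilityTheory Pool.Agent.W533.LP

/-- The level at distance `i` that stays in the box. -/
def lv {n : ℕ} (v : V n) (i : ℕ) : ℕ := if lev v < n then lev v + i else lev v - i

/-- The cone of `v` at the level `lv v i`. -/
def cn {n : ℕ} (v : V n) (i : ℕ) : Finset (V n) :=
  Finset.univ.filter (fun v' => lev v' = lv v i ∧ |((v'.1 : ℕ) : ℤ) - (v.1 : ℕ)| ≤ i ∧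
    |((v'.2 : ℕ) : ℤ) - (v.2 : ℕ)| ≤ i)

theorem lev_lt {n : ℕ} (v : V n) : lev v + 1 < 2 * n := by
  have h1 := v.1.isLt
  have h2 := v.2.isLt
  unfold lev
  omega

theorem lv_lt {n : ℕ} (v : V n) (i R : ℕ) (hi : i ≤ R) (hR : R + 1 ≤ n) :
    lv v i + 1 < 2 * n := by
  have := lev_lt v
  unfold lv
  split_ifs with h <;> omega

theorem lv_abs {n : ℕ} (v : V n) (i R : ℕ) (hi : i ≤ R) (hR : R + 1 ≤ n) :
    |((lv v i : ℕ) : ℤ) - (lev v : ℕ)| = i := by
  unfold lv
  split_ifs with h
  · push_cast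
    rw [add_sub_cancel_left]
    simp
  · have : i ≤ lev v := by omega
    rw [Nat.cast_sub this]
    rw [show ((lev v : ℤ) - (i : ℤ)) - (lev v : ℤ) = -(i : ℤ) by ring]
    simp

theorem card_cn {n : ℕ} (v : V n) (i R : ℕ) (hi : i ≤ R) (hR : R + 1 ≤ n) :
    (cn v i).card ≤ i + 1 := by
  have h : (cn v i).card ≤ (Finset.range (i + 1)).card := by
    apply Finset.card_le_card_of_injOn
      (fun v' : V n => (((v'.1 : ℕ) : ℤ) - (v.1 : ℕ)).natAbs)
    · intro v' hv'
      simp only [cn, Finset.coe_filter, Finset.mem_univ, true_and, Set.mem_ofPred_eq] at hv'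
      simp only [Finset.coe_range, Set.mem_Iio]
      have := hv'.2.1
      rw [abs_le] at this
      omega
    · intro a ha b hb hab
      simp only [cn, Finset.coe_filter, Finset.mem_univ, true_and, Set.mem_ofPred_eq] at ha hb
      obtain ⟨ha0, ha1, ha2⟩ := ha
      obtain ⟨hb0, hb1, hb2⟩ := hb
      simp only at hab
      unfold lv lev at *
      rw [abs_le] at ha1 ha2 hb1 hb2
      have e1 : (a.1 : ℕ) = (b.1 : ℕ) := by
        split_ifs at ha0 hb0 with h
        · omega
        · omega
      have e2 : (a.2 : ℕ) = (b.2 : ℕ) := by omega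
      exact Prod.ext (Fin.ext e1) (Fin.ext e2)
  simpa using h

theorem gCone : GCone := by
  intro n R K P Big hP hR hnear
  classical
  have h1 : ∀ v : V n, ∀ i ∈ Finset.range (R + 1),
      P v ^ 2 * (1 / ((i : ℝ) + 1)) ≤ ∑ v' ∈ cn v i, P v' ^ 2 := by
    intro v i hi
    have hi' : i ≤ R := by
      have := Finset.mem_range.1 hi
      omega
    have hc := hP.cone v (lv v i) (lv_lt v i R hi' hR)
    rw [lv_abs v i R hi' hR] at hc
    have hc' : P v ≤ ∑ v' ∈ cn v i, P v' := by
      rw [← Finset.sum_filter] at hc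
      exact hc
    have hcs := sq_sum_le_card_mul_sum_sq (s := cn v i) (f := P)
    have h0 : P v ^ 2 ≤ (∑ v' ∈ cn v i, P v') ^ 2 :=
      pow_le_pow_left₀ (hP.nn v) hc' 2
    have hnn : 0 ≤ ∑ v' ∈ cn v i, P v' ^ 2 := Finset.sum_nonneg (fun _ _ => sq_nonneg _)
    have hcard : ((cn v i).card : ℝ) ≤ (i : ℝ) + 1 := by
      exact_mod_cast card_cn v i R hi' hR
    have hpos : (0 : ℝ) < (i : ℝ) + 1 := by positivity
    rw [mul_one_div, div_le_iff₀ hpos]
    calc P v ^ 2 ≤ _ := h0
      _ ≤ _ := hcs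
      _ ≤ ((i : ℝ) + 1) * ∑ v' ∈ cn v i, P v' ^ 2 :=
        mul_le_mul_of_nonneg_right hcard hnn
      _ = _ := by ring
  have h2 : ∀ v : V n, P v ^ 2 * (∑ i ∈ Finset.range (R + 1), 1 / ((i : ℝ) + 1)) ≤
      ∑ v' : V n, (if |((v'.1 : ℕ) : ℤ) - (v.1 : ℕ)| ≤ R ∧
        |((v'.2 : ℕ) : ℤ) - (v.2 : ℕ)| ≤ R then P v' ^ 2 else 0) := by
    intro v
    rw [Finset.mul_sum]
    refine (Finset.sum_le_sum (h1 v)).trans ?_
    have e : ∀ i ∈ Finset.range (R + 1), ∑ v' ∈ cn v i, P v' ^ 2 =
        ∑ v' : V n, (if v' ∈ cn v i then P v' ^ 2 else 0) := by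
      intro i _
      rw [← Finset.sum_filter]
      congr 1
      ext x
      simp
    rw [Finset.sum_congr rfl e, Finset.sum_comm]
    apply Finset.sum_le_sum
    intro v' _
    rw [← Finset.sum_filter, Finset.sum_const, nsmul_eq_mul]
    have hle1 : ((Finset.range (R + 1)).filter (fun i => v' ∈ cn v i)).card ≤ 1 := by
      rw [Finset.card_le_one]
      intro a ha b hb
      simp only [cn, Finset.mem_filter, Finset.mem_range, Finset.mem_univ, true_and] at ha hb
      have e1 := ha.2.1
      have e2 := hb.2.1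
      rw [e1] at e2
      have l1 := lv_abs v a R (by omega) hR
      have l2 := lv_abs v b R (by omega) hR
      rw [e2, l2] at l1
      exact_mod_cast l1.symm
    split_ifs with hcond
    · have : (((Finset.range (R + 1)).filter (fun i => v' ∈ cn v i)).card : ℝ) ≤ 1 := by
        exact_mod_cast hle1
      nlinarith [sq_nonneg (P v')]
    · have hz : ((Finset.range (R + 1)).filter (fun i => v' ∈ cn v i)) = ∅ := by
        rw [Finset.filter_eq_empty_iff]
        intro i hi hmem
        apply hcond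
        simp only [cn, Finset.mem_filter, Finset.mem_univ, true_and] at hmem
        have hi' : (i : ℤ) ≤ R := by
          have := Finset.mem_range.1 hi
          omega
        exact ⟨hmem.2.1.trans hi', hmem.2.2.trans hi'⟩
      rw [hz]
      simp
  rw [Finset.sum_mul]
  refine (Finset.sum_le_sum (fun v _ => h2 v)).trans ?_
  rw [Finset.sum_comm, Finset.mul_sum]
  apply Finset.sum_le_sum
  intro v' _
  rw [← Finset.sum_filter, Finset.sum_const, nsmul_eq_mul]
  have hk : (((Big.filter (fun v => |((v'.1 : ℕ) : ℤ) - (v.1 : ℕ)| ≤ R ∧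
    |((v'.2 : ℕ) : ℤ) - (v.2 : ℕ)| ≤ R)).card : ℕ) : ℝ) ≤ K := Nat.cast_le.2 (hnear v')
  exact mul_le_mul_of_nonneg_right hk (sq_nonneg _)

/-! ### sparsity of big sites -/

theorem geoM_prob (q : ℝ) (h0 : 0 < q) (h1 : q < 1) : IsProbabilityMeasure (geoM q) := by
  constructor
  unfold geoM
  rw [Measure.sum_apply _ MeasurableSet.univ]
  simp only [Measure.smul_apply, measure_univ, smul_eq_mul, mul_one]
  rw [← ENNReal.ofReal_tsum_of_nonneg]
  · rw [tsum_mul_left, tsum_geometric_of_lt_one h0.le h1]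
    rw [mul_inv_cancel₀ (by linarith)]
    simp
  · intro k
    have : 0 ≤ 1 - q := by linarith
    positivity
  · exact (summable_geometric_of_lt_one h0.le h1).mul_left _

theorem geoM_tail (q : ℝ) (h0 : 0 < q) (h1 : q < 1) (L : ℕ) :
    geoM q (Set.Ioi L) = ENNReal.ofReal (q ^ (L + 1)) := by
  unfold geoM
  rw [Measure.sum_apply _ measurableSet_Ioi]
  have e : ∀ k : ℕ, (ENNReal.ofReal ((1 - q) * q ^ k) • Measure.dirac k) (Set.Ioi L) =
      ENNReal.ofReal (if L < k then (1 - q) * q ^ k else 0) := by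
    intro k
    simp only [Measure.smul_apply, smul_eq_mul]
    rw [Measure.dirac_apply' _ measurableSet_Ioi]
    by_cases h : L < k
    · simp [Set.indicator, h]
    · simp [Set.indicator, h]
  simp_rw [e]
  have hq1 : 0 ≤ 1 - q := by linarith
  have hs : Summable (fun k : ℕ => if L < k then (1 - q) * q ^ k else 0) := by
    apply Summable.of_nonneg_of_le (f := fun k : ℕ => (1 - q) * q ^ k)
    · intro k
      split_ifs <;> positivity
    · intro k
      split_ifs
      · exact le_rfl
      · positivity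
    · exact (summable_geometric_of_lt_one h0.le h1).mul_left _
  rw [← ENNReal.ofReal_tsum_of_nonneg _ hs]
  · congr 1
    rw [← hs.sum_add_tsum_nat_add (L + 1)]
    have z : ∑ i ∈ Finset.range (L + 1), (if L < i then (1 - q) * q ^ i else 0) = 0 := by
      apply Finset.sum_eq_zero
      intro i hi
      have := Finset.mem_range.1 hi
      rw [if_neg (by omega)]
    rw [z, zero_add]
    have e2 : ∀ i : ℕ, (if L < i + (L + 1) then (1 - q) * q ^ (i + (L + 1)) else 0) =
        ((1 - q) * q ^ (L + 1)) * q ^ i := by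
      intro i
      rw [if_pos (by omega), pow_add]
      ring
    simp_rw [e2]
    rw [tsum_mul_left, tsum_geometric_of_lt_one h0.le h1]
    have : (1 - q) ≠ 0 := by linarith
    field_simp
  · intro k
    split_ifs <;> positivity

theorem muY_tail (q : ℝ) (h0 : 0 < q) (h1 : q < 1) (n L : ℕ) (A : Finset (V n)) :
    (muY q n).real {y | ∀ v ∈ A, L < y v} = (q ^ (L + 1)) ^ A.card := by
  classical
  haveI := geoM_prob q h0 h1
  unfold muY
  have e : {y : V n → ℕ | ∀ v ∈ A, L < y v} =
      Set.pi Set.univ (fun v : V n => if v ∈ A then Set.Ioi L else Set.univ) := by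
    ext y
    simp only [Set.mem_ofPred_eq, Set.mem_pi, Set.mem_univ, true_implies]
    constructor
    · intro h v
      split_ifs with hv
      · exact h v hv
      · trivial
    · intro h v hv
      have := h v
      rw [if_pos hv] at this
      exact this
  rw [Measure.real, e, Measure.pi_pi]
  have e3 : ∀ v : V n, geoM q (if v ∈ A then Set.Ioi L else Set.univ) =
      if v ∈ A then ENNReal.ofReal (q ^ (L + 1)) else 1 := by
    intro v
    split_ifs
    · exact geoM_tail q h0 h1 L
    · exact measure_univ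
  simp_rw [e3]
  rw [Finset.prod_ite_mem, Finset.univ_inter, Finset.prod_const, ENNReal.toReal_pow,
    ENNReal.toReal_ofReal (by positivity)]

theorem card_ball {n : ℕ} (R : ℕ) (v' : V n) :
    (Finset.univ.filter (fun v : V n => |((v'.1 : ℕ) : ℤ) - (v.1 : ℕ)| ≤ R ∧
    |((v'.2 : ℕ) : ℤ) - (v.2 : ℕ)| ≤ R)).card ≤ (2 * R + 1) ^ 2 := by
  have h : (Finset.univ.filter (fun v : V n => |((v'.1 : ℕ) : ℤ) - (v.1 : ℕ)| ≤ R ∧
    |((v'.2 : ℕ) : ℤ) - (v.2 : ℕ)| ≤ R)).card ≤
      ((Finset.Icc (-(R : ℤ)) R) ×ˢ (Finset.Icc (-(R : ℤ)) R)).card := by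
    apply Finset.card_le_card_of_injOn
      (fun v : V n => (((v'.1 : ℕ) : ℤ) - (v.1 : ℕ), ((v'.2 : ℕ) : ℤ) - (v.2 : ℕ)))
    · intro v hv
      simp only [Finset.coe_filter, Finset.mem_univ, true_and, Set.mem_ofPred_eq] at hv
      rw [abs_le, abs_le] at hv
      simp only [Finset.coe_product, Finset.coe_Icc, Set.mem_prod, Set.mem_Icc]
      exact hv
    · intro a _ b _ hab
      simp only [Prod.mk.injEq] at hab
      exact Prod.ext (Fin.ext (by omega)) (Fin.ext (by omega))
  refine h.trans (le_of_eq ?_)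
  rw [Finset.card_product, Int.card_Icc]
  have : ((R : ℤ) + 1 - -(R : ℤ)).toNat = 2 * R + 1 := by omega
  rw [this]
  ring

theorem gBad : GBad := by
  intro q h0 h1 n L R K
  classical
  haveI := geoM_prob q h0 h1
  haveI : IsProbabilityMeasure (muY q n) := by
    unfold muY
    infer_instance
  let ball : V n → Finset (V n) := fun v' =>
    Finset.univ.filter (fun v : V n => |((v'.1 : ℕ) : ℤ) - (v.1 : ℕ)| ≤ R ∧
    |((v'.2 : ℕ) : ℤ) - (v.2 : ℕ)| ≤ R)
  have hsub : {y : V n → ℕ | ∃ v', K < near (Finset.univ.filter (fun v => L < y v)) R v'} ⊆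
      ⋃ v' ∈ (Finset.univ : Finset (V n)), ⋃ A ∈ (ball v').powersetCard (K + 1),
        {y : V n → ℕ | ∀ v ∈ A, L < y v} := by
    rintro y ⟨v', hv'⟩
    unfold near at hv'
    obtain ⟨A, hA, hcard⟩ := Finset.exists_subset_card_eq (Nat.succ_le_of_lt hv')
    simp only [Set.mem_iUnion]
    refine ⟨v', Finset.mem_univ _, A, ?_, ?_⟩
    · rw [Finset.mem_powersetCard]
      refine ⟨?_, hcard⟩
      intro v hv
      have := hA hv
      simp only [Finset.mem_filter, Finset.mem_univ, true_and] at this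
      simp only [ball, Finset.mem_filter, Finset.mem_univ, true_and]
      exact this.2
    · intro v hv
      have := hA hv
      simp only [Finset.mem_filter, Finset.mem_univ, true_and] at this
      exact this.1
  refine (measureReal_mono hsub (measure_ne_top _ _)).trans ?_
  refine (measureReal_biUnion_finset_le _ _).trans ?_
  have hin : ∀ v' ∈ (Finset.univ : Finset (V n)),
      (muY q n).real (⋃ A ∈ (ball v').powersetCard (K + 1),
        {y : V n → ℕ | ∀ v ∈ A, L < y v}) ≤ ((2 * (R : ℝ) + 1) ^ 2 * q ^ (L + 1)) ^ (K + 1) := by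
    intro v' _
    refine (measureReal_biUnion_finset_le _ _).trans ?_
    have e : ∀ A ∈ (ball v').powersetCard (K + 1),
        (muY q n).real {y : V n → ℕ | ∀ v ∈ A, L < y v} = (q ^ (L + 1)) ^ (K + 1) := by
      intro A hA
      rw [muY_tail q h0 h1 n L A, (Finset.mem_powersetCard.1 hA).2]
    rw [Finset.sum_congr rfl e, Finset.sum_const, nsmul_eq_mul, mul_pow]
    apply mul_le_mul_of_nonneg_right _ (by positivity)
    rw [Finset.card_powersetCard]
    have hb : ((ball v').card : ℝ) ≤ (2 * (R : ℝ) + 1) ^ 2 := by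
      have hcb : (ball v').card ≤ (2 * R + 1) ^ 2 := card_ball R v'
      have hcb' : ((ball v').card : ℝ) ≤ (((2 * R + 1) ^ 2 : ℕ) : ℝ) := Nat.cast_le.2 hcb
      push_cast at hcb'
      exact hcb'
    calc (((ball v').card.choose (K + 1) : ℕ) : ℝ) ≤ (((ball v').card ^ (K + 1) : ℕ) : ℝ) := by
          exact_mod_cast Nat.choose_le_pow _ _
      _ = ((ball v').card : ℝ) ^ (K + 1) := by push_cast; ring
      _ ≤ _ := pow_le_pow_left₀ (by positivity) hb _
  refine (Finset.sum_le_sum hin).trans (le_of_eq ?_)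
  rw [Finset.sum_const, nsmul_eq_mul, Finset.card_univ, Fintype.card_prod, Fintype.card_fin]
  push_cast
  ring

end Pool.Agent.W315.LP
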